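import Pool.Agent.Lib.MP_43df1d_lc.GT.H58.All

/-!
A nonempty perfect set of marked groups in whose generic theory the Boolean combinations of universal
sentences are decidable.
-/

set_option autoImplicit false

namespace Pool.Agent.Results.MP_43df1d_lc.GenericUniversal

/-- Group words: the letter `(i, true)` stands for the variable `x_i` and `(i, false)` for its inverse. -/
abbrev Word : Type := List (ℕ × Bool)

/-- The value of a word in a group at the assignment `x`. -/
def value {G : Type} [Group G] (x : ℕ → G) : Word → G
  | [] => 1
  | (i, b) :: w => (if b then x i else (x i)⁻¹) * value x w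

/-- Universal sentences of the language of groups in clause form: the list `σ` stands for
`∀ x, ⋀_{p ∈ σ} (⋀_{r ∈ p.1} r(x) = 1 → ⋁_{w ∈ p.2} w(x) = 1)`. -/
abbrev Universal : Type := List (List Word × List Word)

/-- The universal sentence `σ` holds in the group `G`. -/
def Universal.Holds (σ : Universal) (G : Type) [Group G] : Prop :=
  ∀ x : ℕ → G, ∀ p ∈ σ, (∀ r ∈ p.1, value x r = 1) → ∃ w ∈ p.2, value x w = 1

/-- Boolean combinations of universal sentences in conjunctive normal form: a list of clauses, each a list of
literals `(true, σ)` for `σ` and `(false, σ)` for its negation. -/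
abbrev Combination : Type := List (List (Bool × Universal))

/-- The Boolean combination `β` of universal sentences holds in the group `G`. -/
def Combination.Holds (β : Combination) (G : Type) [Group G] : Prop :=
  ∀ c ∈ β, ∃ l ∈ c, (l.1 = true ∧ Universal.Holds l.2 G) ∨ (l.1 = false ∧ ¬ Universal.Holds l.2 G)

/-- The topology of the space of finitely generated marked groups: a point `f` is the indicator function of a
normal subgroup of the free group on `x₀, x₁, …`; the topology is generated by the product topology and the
sets of those `f` that contain all `x_i` with `i ≥ m`. -/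
@[reducible] def topology : TopologicalSpace (FreeGroup ℕ → Bool) :=
  TopologicalSpace.generateFrom
    ({U | @IsOpen (FreeGroup ℕ → Bool) Pi.topologicalSpace U} ∪
      {V | ∃ m : ℕ, V = {f | ∀ i : ℕ, m ≤ i → f (FreeGroup.of i) = true}})

/-- `f` is a finitely generated marked group: the indicator function of a normal subgroup of the free group
that contains all but finitely many `x_i`. -/
def IsMarked (f : FreeGroup ℕ → Bool) : Prop :=
  (∃ N : Subgroup (FreeGroup ℕ), N.Normal ∧ ∀ w, w ∈ N ↔ f w = true) ∧
    ∃ m : ℕ, ∀ i : ℕ, m ≤ i → f (FreeGroup.of i) = true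

/-- `S` is a nonempty perfect set of finitely generated marked groups: closed, without isolated points. -/
structure IsPerfect (S : Set (FreeGroup ℕ → Bool)) : Prop where
  nonempty : S.Nonempty
  marked : ∀ f ∈ S, IsMarked f
  closed : ∀ f : FreeGroup ℕ → Bool, IsMarked f → f ∈ @closure _ topology S → f ∈ S
  perfect : ∀ f ∈ S, f ∈ @closure _ topology (S \ {f})

/-- The marked groups of `S` whose underlying groups have the property `P` form a comeager subset of `S`. -/
def Generic (S : Set (FreeGroup ℕ → Bool)) (P : (G : Type) → [Group G] → Prop) : Prop :=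
  ∃ U : ℕ → Set (FreeGroup ℕ → Bool),
    (∀ i, @IsOpen _ topology (U i) ∧ S ⊆ @closure _ topology (S ∩ U i)) ∧
    ∀ f ∈ S, (∀ i, f ∈ U i) →
      ∀ (N : Subgroup (FreeGroup ℕ)) [N.Normal], (∀ w, w ∈ N ↔ f w = true) → P (FreeGroup ℕ ⧸ N)

open Pool.Agent.Lib.MP_43df1d_lc

theorem value_eq {G : Type} [Group G] (x : ℕ → G) (w : Word) : value x w = GT.wval x w := by
  induction w with
  | nil => rfl
  | cons c w ih => rcases c with ⟨i, b⟩; simp only [value, GT.wval, ih]

theorem universal_holds (σ : Universal) (G : Type) [Group G] : σ.Holds G ↔ GT.USent.holds σ G := by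
  simp only [Universal.Holds, GT.USent.holds, value_eq]

theorem combination_holds (β : Combination) (G : Type) [Group G] : β.Holds G ↔ GT.BSent.holds β G := by
  simp only [Combination.Holds, GT.BSent.holds, universal_holds]

theorem generic_iff {S : Set (FreeGroup ℕ → Bool)} {P Q : (G : Type) → [Group G] → Prop}
    (h : ∀ (G : Type) [Group G], P G ↔ Q G) : Generic S P ↔ GT.Gen S Q := by
  constructor
  · rintro ⟨U, hU, h1⟩
    exact ⟨U, hU, fun f hf h2 N _ hN => (h _).1 (h1 f hf h2 N hN)⟩
  · rintro ⟨U, hU, h1⟩
    exact ⟨U, hU, fun f hf h2 N _ hN => (h _).2 (h1 f hf h2 N hN)⟩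

/-- There is a nonempty perfect set `S` of finitely generated marked groups such that every Boolean
combination of universal sentences, or its negation, lies in the generic theory of `S`, and the set of the
Boolean combinations of universal sentences in the generic theory of `S` is decidable. -/
theorem result : ∃ S : Set (FreeGroup ℕ → Bool), IsPerfect S ∧
    (∀ β : Combination, Generic S (fun G _ => β.Holds G) ∨ Generic S (fun G _ => ¬ β.Holds G)) ∧
    ComputablePred fun β : Combination => Generic S (fun G _ => β.Holds G) := by
  obtain ⟨h1, h2, h3⟩ := GT.t2t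
  refine ⟨GT.SH, ⟨h1.ne, h1.mark, fun f hf hf' => h1.closed f hf.1 hf.2 hf', h1.perf⟩, fun β => ?_, ?_⟩
  · rcases h2 β with h | h
    · exact Or.inl ((generic_iff fun G _ => combination_holds β G).2 h)
    · exact Or.inr ((generic_iff fun G _ => not_congr (combination_holds β G)).2 h)
  · exact h3.of_eq fun β => (generic_iff fun G _ => combination_holds β G).symm

end Pool.Agent.Results.MP_43df1d_lc.GenericUniversal
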